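import Pool.Agent.X64.Fast.Cover

/-!
# MP_a0dd0b_co, Q1 (negated form): the dodecahedron graph can be drawn on nine lines

The conjectured values of the affine line cover numbers of the dodecahedron and of the icosahedron
in 3-space are 10 and 15. The first one is too large: there is a crossing-free straight-line drawing
of the dodecahedron graph (even in a plane) whose edges lie on nine lines.
-/

namespace Pool.Agent.Results.MP_a0dd0b_co.NineLines

open Pool.Agent.X64.Hex Pool.Agent.X64.NO1 Pool.Agent.X64.Fast Set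

section Defs

/-- Three-dimensional space. -/
abbrev Space := EuclideanSpace ℝ (Fin 3)

variable {V : Type}

/-- The vertices at the points `p` and the segments of the edges form a crossing-free
straight-line drawing of `G`: the points are distinct, no vertex lies in the relative interior of
an edge, and two edges meet only in a common end. -/
structure IsDrawing (G : SimpleGraph V) (p : V → Space) : Prop where
  inj : Function.Injective p
  avoid : ∀ u v w, G.Adj u v → p w ∉ openSegment ℝ (p u) (p v)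
  meet : ∀ a b c d, G.Adj a b → G.Adj c d → s(a, b) ≠ s(c, d) →
    ∀ x ∈ segment ℝ (p a) (p b) ∩ segment ℝ (p c) (p d),
      ∃ v, (v = a ∨ v = b) ∧ (v = c ∨ v = d) ∧ x = p v

/-- A line. -/
def IsLine (L : Set Space) : Prop := ∃ q v : Space, v ≠ 0 ∧ L = {x | ∃ t : ℝ, x = q + t • v}

/-- All edges of the drawing lie in the union of some `k` lines. -/
def OnLines (G : SimpleGraph V) (p : V → Space) (k : ℕ) : Prop :=
  ∃ L : Fin k → Set Space, (∀ i, IsLine (L i)) ∧
    ∀ a b, G.Adj a b → segment ℝ (p a) (p b) ⊆ ⋃ i, L i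

/-- The affine line cover number of `G` in 3-space. -/
noncomputable def rho (G : SimpleGraph V) : ℕ :=
  sInf {k | ∃ p : V → Space, IsDrawing G p ∧ OnLines G p k}

/-- Adjacency in the generalized Petersen graph `GP(10,2)`: the outer cycle `0, …, 9`, the spokes
`i, i + 10`, and the inner edges `10 + i, 10 + (i + 2 mod 10)`. -/
def dAdj (u v : Fin 20) : Bool :=
  (decide (u.1 < 10) && decide (v.1 < 10) &&
    (decide (v.1 = (u.1 + 1) % 10) || decide (u.1 = (v.1 + 1) % 10))) ||
  (decide (v.1 = u.1 + 10) || decide (u.1 = v.1 + 10)) ||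
  (decide (10 ≤ u.1) && decide (10 ≤ v.1) &&
    (decide (v.1 = 10 + (u.1 + 2) % 10) || decide (u.1 = 10 + (v.1 + 2) % 10)))

/-- The dodecahedron graph. -/
def dodecahedron : SimpleGraph (Fin 20) where
  Adj u v := dAdj u v = true
  symm := ⟨by decide⟩
  loopless := ⟨by decide⟩

end Defs

/-! ### The drawing -/

/-- The x-coordinates of the vertices (64 binary digits each). -/
def XS : ℕ :=
  0x233aac9c301c4000000000000000000026ff3d0481eb400000000000000000002f9d7a972ee5400081c8a3c9ebf940002d6b61b6532f0000935274bbb1ea8000289123daa401800000000000000000001c9a5f342d7b40001c88617c623480001c37e9c8400240001a7a2c92fc95800034f45925f92b000038a526a8a79e40003c64959e095500004abfe7ff645c80002bf89c4f880a90001d7c6bd23c322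

/-- The y-coordinates of the vertices (64 binary digits each). -/
def YS : ℕ :=
  0xccf8495e2f300000ccf8495e2f300000cffbf0180a3c000935274bbb1ea80000d6e0ee26fb040001189d0f1c5f140000ccf8495e2f3000000000000000000000ccf8495e2f3000000000000000000000c7ab3ea4937c0000ccf8495e2f300000e4add795f96c000168034e22fbc00000eef95dcc2ff00000de1a449b5b980000ccf8495e2f3000008b56d0c5b3a00000c66f102bd58500008510ab803d9a

/-- The x-coordinate of a vertex. -/
def X (v : Fin 20) : ℕ := Nat.mod (Nat.shiftRight XS (Nat.mul 64 v.1)) 18446744073709551616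

/-- The y-coordinate of a vertex. -/
def Y (v : Fin 20) : ℕ := Nat.mod (Nat.shiftRight YS (Nat.mul 64 v.1)) 18446744073709551616

/-- The points of the drawing:
0: (518723553444642, 146306643279258), 1: (773548389466281, 218180314977669), 2:
(1315009463731656, 153204986065824), 3: (1062443272934736, 225366754864944), 4:
(996511509543396, 244204401548184), 5: (931585157206704, 262754787930096), 6: (465792578603352,
395838381816768), 7: (496423535902756, 251435297405292), 8: (501953226744648, 225366754864944),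
9: (503189564741556, 219538304308092), 10: (0, 0), 11: (713661390405656, 225366754864944), 12:
(2591717680946856, 0), 13: (799027585430256, 225366754864944), 14: (2283179861786516,
308537819160340), 15: (837654609587796, 236261556550404), 16: (0, 2591717680946856), 17:
(686042915544756, 228680971848252), 18: (0, 225366754864944), 19: (619758575878596,
225366754864944). -/
def P (v : Fin 20) : IP := ((X v : ℤ), (Y v : ℤ))

/-- The edges, each with the number of its line. -/
def EN : List ((Fin 20 × Fin 20) × ℕ) := [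
  ((0, 1), 6), ((0, 9), 4), ((0, 10), 6), ((1, 2), 1), ((1, 11), 1), ((2, 3), 2), ((2, 12), 1),
  ((3, 4), 2), ((3, 13), 8), ((4, 5), 2), ((4, 14), 7), ((5, 6), 2), ((5, 15), 6), ((6, 7), 4),
  ((6, 16), 4), ((7, 8), 4), ((7, 17), 1), ((8, 9), 4), ((8, 18), 8), ((9, 19), 7), ((10, 12), 0),
  ((10, 18), 5), ((11, 13), 8), ((11, 19), 8), ((12, 14), 3), ((13, 15), 6), ((14, 16), 3),
  ((15, 17), 7), ((16, 18), 5), ((17, 19), 7)]

/-- Two points on each of the nine lines. -/
def LN : List (Fin 20 × Fin 20) := [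
  (10, 12), (1, 2), (2, 3), (12, 14), (0, 6), (10, 16), (0, 1), (4, 9), (3, 8)]

/-- The edges. -/
def EL : List (Fin 20 × Fin 20) := EN.map Prod.fst

/-- Equality of vertices. -/
def eqb (a b : Fin 20) : Bool := Nat.beq a.1 b.1

theorem eqb_iff {a b : Fin 20} : eqb a b = true ↔ a = b := by
  unfold eqb
  rw [Nat.beq_eq]
  exact Fin.ext_iff.symm

theorem neqb {a b : Fin 20} : nt (eqb a b) = true ↔ a ≠ b := by
  rw [nt_iff, ← Bool.not_eq_true, eqb_iff]

/-- All vertices. -/
def VL : List (Fin 20) := [0, 1, 2, 3, 4, 5, 6, 7, 8, 9, 10, 11, 12, 13, 14, 15, 16, 17, 18, 19]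

theorem mem_VL (v : Fin 20) : v ∈ VL := by
  revert v
  decide

/-- The pair is on the list. -/
noncomputable def isE (l : List (Fin 20 × Fin 20)) (a b : Fin 20) : Bool :=
  ay (fun e => an (eqb e.1 a) (eqb e.2 b)) l

theorem isE_iff {l : List (Fin 20 × Fin 20)} {a b : Fin 20} : isE l a b = true ↔ (a, b) ∈ l := by
  unfold isE
  rw [ay_iff]
  constructor
  · rintro ⟨e, he, h⟩
    rw [an_iff, eqb_iff, eqb_iff] at h
    have : e = (a, b) := Prod.ext h.1 h.2
    rwa [← this]
  · intro h
    exact ⟨_, h, an_iff.2 ⟨eqb_iff.2 rfl, eqb_iff.2 rfl⟩⟩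

theorem adj_mem (a b : Fin 20) (h : dodecahedron.Adj a b) : (a, b) ∈ EL ∨ (b, a) ∈ EL := by
  have key : al (fun a => al (fun b => orr (nt (dAdj a b)) (orr (isE EL a b) (isE EL b a))) VL) VL
      = true := by decide +kernel
  have h1 := orr_iff.1 (al_iff.1 (al_iff.1 key a (mem_VL a)) b (mem_VL b))
  rcases h1 with h1 | h1
  · have h2 : dAdj a b = true := h
    rw [nt_iff, h2] at h1
    exact absurd h1.symm Bool.false_ne_true
  · rw [orr_iff, isE_iff, isE_iff] at h1
    exact h1

/-- The orientation of a triple is positive. -/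
def ps (a b c : Fin 20) : Bool := gt (X a) (Y a) (X b) (Y b) (X c) (Y c)

/-- The orientation of a triple is negative. -/
def ng (a b c : Fin 20) : Bool := lt (X a) (Y a) (X b) (Y b) (X c) (Y c)

theorem ps_iff (a b c : Fin 20) : ps a b c = true ↔ 0 < oi (P a) (P b) (P c) := gt_iff _ _ _ _ _ _

theorem ng_iff (a b c : Fin 20) : ng a b c = true ↔ oi (P a) (P b) (P c) < 0 := lt_iff _ _ _ _ _ _

/-- The integer segment of an edge. -/
def sg (e : Fin 20 × Fin 20) : IP × IP := (P e.1, P e.2)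

/-- The two edges have no common end. -/
noncomputable def dj (e f : Fin 20 × Fin 20) : Bool :=
  an (an (an (nt (eqb e.1 f.1)) (nt (eqb e.1 f.2))) (nt (eqb e.2 f.1))) (nt (eqb e.2 f.2))

/-- The two segments are separated by the line of one of them. -/
noncomputable def sp (e f : Fin 20 × Fin 20) : Bool :=
  orr (orr (orr (an (ps e.1 e.2 f.1) (ps e.1 e.2 f.2)) (an (ng e.1 e.2 f.1) (ng e.1 e.2 f.2)))
    (an (ps f.1 f.2 e.1) (ps f.1 f.2 e.2))) (an (ng f.1 f.2 e.1) (ng f.1 f.2 e.2))

theorem sp_spec {e f : Fin 20 × Fin 20} (h : sp e f = true) : sepB (sg e) (sg f) = true := by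
  unfold sp at h
  simp only [orr_iff, an_iff, ps_iff, ng_iff] at h
  unfold sepB sg
  rw [Bool.or_eq_true, decide_eq_true_eq, decide_eq_true_eq]
  rcases h with ((h | h) | h) | h
  · exact Or.inl (mul_pos h.1 h.2)
  · exact Or.inl (mul_pos_of_neg_of_neg h.1 h.2)
  · exact Or.inr (mul_pos h.1 h.2)
  · exact Or.inr (mul_pos_of_neg_of_neg h.1 h.2)

/-- `a < b`. -/
def ltb (a b : ℕ) : Bool := Nat.ble (Nat.succ a) b

theorem ltb_iff {a b : ℕ} : ltb a b = true ↔ a < b := ble_iff

/-- The first segment is to the left of the second one. -/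
noncomputable def lft (e f : Fin 20 × Fin 20) : Bool :=
  an (an (ltb (X e.1) (X f.1)) (ltb (X e.1) (X f.2))) (an (ltb (X e.2) (X f.1)) (ltb (X e.2) (X f.2)))

/-- `v` is between the other two vertices, with respect to the x- or to the y-coordinate. -/
noncomputable def btw (a v b : Fin 20) : Bool :=
  orr (orr (an (ltb (X a) (X v)) (ltb (X v) (X b))) (an (ltb (X b) (X v)) (ltb (X v) (X a))))
    (orr (an (ltb (Y a) (Y v)) (ltb (Y v) (Y b))) (an (ltb (Y b) (Y v)) (ltb (Y v) (Y a))))

/-- The segments of `v a` and `v b` meet only in `v`. -/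
noncomputable def adjo (v a b : Fin 20) : Bool := orr (orr (ps v a b) (ng v a b)) (btw a v b)

/-- The check of a pair of edges. -/
noncomputable def ok (e f : Fin 20 × Fin 20) : Bool :=
  orr (an (dj e f) (orr (sp e f) (orr (lft e f) (lft f e))))
    (orr (orr (an (eqb e.1 f.1) (adjo e.1 e.2 f.2)) (an (eqb e.1 f.2) (adjo e.1 e.2 f.1)))
      (orr (an (eqb e.2 f.1) (adjo e.2 e.1 f.2)) (an (eqb e.2 f.2) (adjo e.2 e.1 f.1))))

theorem chk : al2 ok EL = true := by decide +kernel

/-! ### Planar geometry -/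

/-- The planar point of a vertex. -/
def pt (v : Fin 20) : Plane := cc (P v)

theorem sp_geo {e f : Fin 20 × Fin 20} (h : sp e f = true) {x : Plane}
    (h1 : x ∈ segment ℝ (pt e.1) (pt e.2)) (h2 : x ∈ segment ℝ (pt f.1) (pt f.2)) : False :=
  sepB_spec (sp_spec h) h1 h2

theorem lft_geo {e f : Fin 20 × Fin 20} (h : lft e f = true) {x : Plane}
    (h1 : x ∈ segment ℝ (pt e.1) (pt e.2)) (h2 : x ∈ segment ℝ (pt f.1) (pt f.2)) : False := by
  unfold lft at h
  simp only [an_iff, ltb_iff] at h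
  obtain ⟨⟨a1, a2⟩, a3, a4⟩ := h
  obtain ⟨t, t0, t1, hx, -⟩ := mem_seg.1 h1
  obtain ⟨s, s0, s1, hx', -⟩ := mem_seg.1 h2
  have e1 : ∀ v, (pt v).1 = (X v : ℝ) := fun v => by unfold pt cc P; simp
  rw [e1, e1] at hx hx'
  have b1 : (X e.1 : ℝ) < X f.1 := by exact_mod_cast a1
  have b2 : (X e.1 : ℝ) < X f.2 := by exact_mod_cast a2
  have b3 : (X e.2 : ℝ) < X f.1 := by exact_mod_cast a3
  have b4 : (X e.2 : ℝ) < X f.2 := by exact_mod_cast a4
  have c1 : x.1 ≤ max (X e.1 : ℝ) (X e.2) := by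
    rw [hx]
    nlinarith [le_max_left (X e.1 : ℝ) (X e.2), le_max_right (X e.1 : ℝ) (X e.2)]
  have c2 : min (X f.1 : ℝ) (X f.2) ≤ x.1 := by
    rw [hx']
    nlinarith [min_le_left (X f.1 : ℝ) (X f.2), min_le_right (X f.1 : ℝ) (X f.2)]
  have c3 : max (X e.1 : ℝ) (X e.2) < min (X f.1 : ℝ) (X f.2) :=
    max_lt (lt_min b1 b2) (lt_min b3 b4)
  linarith

theorem adjo_geo {v a b : Fin 20} (h : adjo v a b = true) {x : Plane}
    (h1 : x ∈ segment ℝ (pt v) (pt a)) (h2 : x ∈ segment ℝ (pt v) (pt b)) : x = pt v := by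
  unfold adjo btw at h
  simp only [orr_iff, an_iff, ltb_iff, ps_iff, ng_iff] at h
  rcases h with h | h
  · have : ori (pt v) (pt a) (pt b) ≠ 0 := by
      unfold pt
      rw [ori_cc]
      rcases h with h | h
      · exact_mod_cast h.ne'
      · exact_mod_cast h.ne
    exact common this h1 h2
  · obtain ⟨t, t0, t1, hx, hy⟩ := mem_seg.1 h1
    obtain ⟨s, s0, s1, hx', hy'⟩ := mem_seg.1 h2
    have e1 : ∀ v, (pt v).1 = (X v : ℝ) := fun v => by unfold pt cc P; simp
    have e2 : ∀ v, (pt v).2 = (Y v : ℝ) := fun v => by unfold pt cc P; simp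
    have hfin : t = 0 → x = pt v := by
      intro ht
      rw [ht] at hx hy
      exact Prod.ext (by linarith) (by linarith)
    apply hfin
    rw [e1, e1] at hx hx'
    rw [e2, e2] at hy hy'
    rcases h with (h | h) | (h | h)
    · have b1 : (X a : ℝ) < X v := by exact_mod_cast h.1
      have b2 : (X v : ℝ) < X b := by exact_mod_cast h.2
      nlinarith [mul_nonneg t0 (sub_nonneg.2 b1.le), mul_nonneg s0 (sub_nonneg.2 b2.le)]
    · have b1 : (X b : ℝ) < X v := by exact_mod_cast h.1
      have b2 : (X v : ℝ) < X a := by exact_mod_cast h.2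
      nlinarith [mul_nonneg t0 (sub_nonneg.2 b2.le), mul_nonneg s0 (sub_nonneg.2 b1.le)]
    · have b1 : (Y a : ℝ) < Y v := by exact_mod_cast h.1
      have b2 : (Y v : ℝ) < Y b := by exact_mod_cast h.2
      nlinarith [mul_nonneg t0 (sub_nonneg.2 b1.le), mul_nonneg s0 (sub_nonneg.2 b2.le)]
    · have b1 : (Y b : ℝ) < Y v := by exact_mod_cast h.1
      have b2 : (Y v : ℝ) < Y a := by exact_mod_cast h.2
      nlinarith [mul_nonneg t0 (sub_nonneg.2 b2.le), mul_nonneg s0 (sub_nonneg.2 b1.le)]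

theorem ok_geo {e f : Fin 20 × Fin 20} (h : ok e f = true) {x : Plane}
    (h1 : x ∈ segment ℝ (pt e.1) (pt e.2)) (h2 : x ∈ segment ℝ (pt f.1) (pt f.2)) :
    ∃ v, (v = e.1 ∨ v = e.2) ∧ (v = f.1 ∨ v = f.2) ∧ x = pt v := by
  unfold ok at h
  simp only [orr_iff, an_iff, eqb_iff] at h
  rcases h with ⟨-, h | h | h⟩ | ((⟨h, h'⟩ | ⟨h, h'⟩) | (⟨h, h'⟩ | ⟨h, h'⟩))
  · exact (sp_geo h h1 h2).elim
  · exact (lft_geo h h1 h2).elim
  · exact (lft_geo h h2 h1).elim
  · rw [← h] at h2
    exact ⟨e.1, Or.inl rfl, Or.inl h, adjo_geo h' h1 h2⟩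
  · rw [← h, segment_symm] at h2
    exact ⟨e.1, Or.inl rfl, Or.inr h, adjo_geo h' h1 h2⟩
  · rw [segment_symm] at h1
    rw [← h] at h2
    exact ⟨e.2, Or.inr rfl, Or.inl h, adjo_geo h' h1 h2⟩
  · rw [segment_symm] at h1 h2
    rw [← h] at h2
    exact ⟨e.2, Or.inr rfl, Or.inr h, adjo_geo h' h1 h2⟩

theorem meet_geo {a b c d : Fin 20} (h : dodecahedron.Adj a b) (h' : dodecahedron.Adj c d)
    (hne : s(a, b) ≠ s(c, d)) {x : Plane} (h1 : x ∈ segment ℝ (pt a) (pt b))
    (h2 : x ∈ segment ℝ (pt c) (pt d)) :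
    ∃ v, (v = a ∨ v = b) ∧ (v = c ∨ v = d) ∧ x = pt v := by
  have key : ∀ e ∈ EL, ∀ f ∈ EL, e ≠ f → x ∈ segment ℝ (pt e.1) (pt e.2) →
      x ∈ segment ℝ (pt f.1) (pt f.2) →
      ∃ v, (v = e.1 ∨ v = e.2) ∧ (v = f.1 ∨ v = f.2) ∧ x = pt v := by
    intro e he f hf hef k1 k2
    rcases al2_spec chk e he f hf with h | h | h
    · exact absurd h hef
    · exact ok_geo h k1 k2
    · obtain ⟨v, v1, v2, v3⟩ := ok_geo h k2 k1
      exact ⟨v, v2, v1, v3⟩
  rcases adj_mem a b h with hm | hm <;> rcases adj_mem c d h' with hm' | hm'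
  · exact key _ hm _ hm' (fun e => hne (by rw [Prod.mk.injEq] at e; rw [e.1, e.2])) h1 h2
  · rw [segment_symm] at h2
    obtain ⟨v, v1, v2, v3⟩ := key _ hm _ hm' (fun e => hne (by
      rw [Prod.mk.injEq] at e; rw [e.1, e.2]; exact Sym2.eq_swap)) h1 h2
    exact ⟨v, v1, v2.symm, v3⟩
  · rw [segment_symm] at h1
    obtain ⟨v, v1, v2, v3⟩ := key _ hm _ hm' (fun e => hne (by
      rw [Prod.mk.injEq] at e; rw [e.1, e.2]; exact Sym2.eq_swap)) h1 h2
    exact ⟨v, v1.symm, v2, v3⟩
  · rw [segment_symm] at h1 h2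
    obtain ⟨v, v1, v2, v3⟩ := key _ hm _ hm' (fun e => hne (by
      rw [Prod.mk.injEq] at e; rw [e.1, e.2])) h1 h2
    exact ⟨v, v1.symm, v2.symm, v3⟩

theorem inj_pt : Function.Injective pt := by
  intro a b h
  have h1 := cc_inj h
  have key : al (fun a => al (fun b => orr (nt (an (Nat.beq (X a) (X b)) (Nat.beq (Y a) (Y b))))
      (eqb a b)) VL) VL = true := by decide +kernel
  have h2 := al_iff.1 (al_iff.1 key a (mem_VL a)) b (mem_VL b)
  rw [orr_iff, nt_iff, ← Bool.not_eq_true, an_iff, Nat.beq_eq, Nat.beq_eq, eqb_iff] at h2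
  have h3 : (X a : ℤ) = X b := congrArg Prod.fst h1
  have h4 : (Y a : ℤ) = Y b := congrArg Prod.snd h1
  exact h2.resolve_left (not_not.2 ⟨by exact_mod_cast h3, by exact_mod_cast h4⟩)

/-! ### Vertices off the edges -/

/-- The vertex `w` is not in the relative interior of the edge. -/
noncomputable def offB (e : Fin 20 × Fin 20) (w : Fin 20) : Bool :=
  orr (orr (ps e.1 e.2 w) (ng e.1 e.2 w)) (orr (orr (eqb e.1 w) (eqb e.2 w))
    (orr (btw w e.1 e.2) (btw w e.2 e.1)))

theorem off_chk : al (fun e => al (fun w => offB e w) VL) EL = true := by decide +kernel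

theorem open_end {v a : Fin 20} (hne : v ≠ a) : pt v ∉ openSegment ℝ (pt v) (pt a) := by
  intro h
  have := left_mem_openSegment_iff.1 h
  exact hne (inj_pt this)

theorem btw_geo {w u v : Fin 20} (h : btw w u v = true) : pt w ∉ segment ℝ (pt u) (pt v) := by
  intro h1
  obtain ⟨t, t0, t1, hx, hy⟩ := mem_seg.1 h1
  have e1 : ∀ v, (pt v).1 = (X v : ℝ) := fun v => by unfold pt cc P; simp
  have e2 : ∀ v, (pt v).2 = (Y v : ℝ) := fun v => by unfold pt cc P; simp
  rw [e1, e1, e1] at hx
  rw [e2, e2, e2] at hy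
  unfold btw at h
  simp only [orr_iff, an_iff, ltb_iff] at h
  rcases h with (h | h) | (h | h)
  · have b1 : (X w : ℝ) < X u := by exact_mod_cast h.1
    have b2 : (X u : ℝ) < X v := by exact_mod_cast h.2
    nlinarith [mul_nonneg t0 (sub_nonneg.2 b2.le)]
  · have b1 : (X v : ℝ) < X u := by exact_mod_cast h.1
    have b2 : (X u : ℝ) < X w := by exact_mod_cast h.2
    nlinarith [mul_nonneg t0 (sub_nonneg.2 b1.le)]
  · have b1 : (Y w : ℝ) < Y u := by exact_mod_cast h.1
    have b2 : (Y u : ℝ) < Y v := by exact_mod_cast h.2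
    nlinarith [mul_nonneg t0 (sub_nonneg.2 b2.le)]
  · have b1 : (Y v : ℝ) < Y u := by exact_mod_cast h.1
    have b2 : (Y u : ℝ) < Y w := by exact_mod_cast h.2
    nlinarith [mul_nonneg t0 (sub_nonneg.2 b1.le)]

theorem EL_ne {e : Fin 20 × Fin 20} (he : e ∈ EL) : e.1 ≠ e.2 := by
  have key : al (fun e => nt (eqb e.1 e.2)) EL = true := by decide +kernel
  have := al_iff.1 key e he
  rwa [neqb] at this

theorem off_geo {e : Fin 20 × Fin 20} (he : e ∈ EL) (w : Fin 20) :
    pt w ∉ openSegment ℝ (pt e.1) (pt e.2) := by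
  intro h1
  have h2 := openSegment_subset_segment _ _ _ h1
  have h := al_iff.1 (al_iff.1 off_chk e he) w (mem_VL w)
  unfold offB at h
  simp only [orr_iff, eqb_iff, ps_iff, ng_iff] at h
  rcases h with h | (h | h) | (h | h)
  · have h3 := ori_zero_of_mem h2
    unfold pt at h3
    rw [ori_cc] at h3
    have h4 : oi (P e.1) (P e.2) (P w) = 0 := by exact_mod_cast h3
    rcases h with h | h
    · exact absurd h4 h.ne'
    · exact absurd h4 h.ne
  · rw [← h] at h1
    exact open_end (EL_ne he) h1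
  · rw [← h, openSegment_symm] at h1
    exact open_end (EL_ne he).symm h1
  · exact btw_geo h h2
  · rw [segment_symm] at h2
    exact btw_geo h h2

/-! ### Space -/

/-- The plane `z = 0` in space. -/
noncomputable def em (x : Plane) : Space := !₂[x.1, x.2, 0]

theorem em_eq {x : Plane} {y : Space} : em x = y ↔ x.1 = y 0 ∧ x.2 = y 1 ∧ 0 = y 2 := by
  constructor
  · rintro rfl
    exact ⟨rfl, rfl, rfl⟩
  · rintro ⟨h1, h2, h3⟩
    ext i
    fin_cases i
    · exact h1
    · exact h2
    · exact h3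

theorem em_inj {x y : Plane} (h : em x = em y) : x = y := by
  rw [em_eq] at h
  exact Prod.ext h.1 h.2.1

theorem em_comb (a b : ℝ) (x y : Plane) : a • em x + b • em y = em (a • x + b • y) := by
  symm
  rw [em_eq]
  refine ⟨?_, ?_, ?_⟩
  · simp [em]
  · simp [em]
  · simp [em]

theorem mem_em_segment {x y : Plane} {z : Space} (h : z ∈ segment ℝ (em x) (em y)) :
    ∃ w ∈ segment ℝ x y, z = em w := by
  obtain ⟨a, b, ha, hb, hab, rfl⟩ := h
  exact ⟨_, ⟨a, b, ha, hb, hab, rfl⟩, em_comb a b x y⟩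

theorem mem_em_openSegment {x y : Plane} {z : Space} (h : z ∈ openSegment ℝ (em x) (em y)) :
    ∃ w ∈ openSegment ℝ x y, z = em w := by
  obtain ⟨a, b, ha, hb, hab, rfl⟩ := h
  exact ⟨_, ⟨a, b, ha, hb, hab, rfl⟩, em_comb a b x y⟩

/-- The drawing in space. -/
noncomputable def p (v : Fin 20) : Space := em (pt v)

theorem drawing : IsDrawing dodecahedron p where
  inj := fun a b h => inj_pt (em_inj h)
  avoid := by
    intro u v w huv hw
    obtain ⟨x, hx, hx'⟩ := mem_em_openSegment hw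
    have h1 := em_inj hx'
    rw [← h1] at hx
    rcases adj_mem u v huv with h | h
    · exact off_geo h w hx
    · rw [openSegment_symm] at hx
      exact off_geo h w hx
  meet := by
    rintro a b c d hab hcd hne z ⟨hz1, hz2⟩
    obtain ⟨x, hx, rfl⟩ := mem_em_segment hz1
    obtain ⟨y, hy, hy'⟩ := mem_em_segment hz2
    have h1 := em_inj hy'
    rw [← h1] at hy
    obtain ⟨v, v1, v2, v3⟩ := meet_geo hab hcd hne hx hy
    exact ⟨v, v1, v2, by rw [v3]; rfl⟩

/-- The two points of a line. -/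
def ln (i : ℕ) : Fin 20 × Fin 20 := LN.getD i (0, 1)

/-- The nine lines. -/
def Ln (i : Fin 9) : Set Space :=
  {x | ∃ t : ℝ, x = p (ln i.1).1 + t • (p (ln i.1).2 - p (ln i.1).1)}

theorem ln_ne (i : Fin 9) : (ln i.1).1 ≠ (ln i.1).2 := by
  revert i
  decide

theorem line_chk : al (fun x => an (ltb x.2 9) (an
    (nt (orr (ps (ln x.2).1 (ln x.2).2 x.1.1) (ng (ln x.2).1 (ln x.2).2 x.1.1)))
    (nt (orr (ps (ln x.2).1 (ln x.2).2 x.1.2) (ng (ln x.2).1 (ln x.2).2 x.1.2))))) EN = true := by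
  decide +kernel

theorem flat_zero {a b c : Fin 20} (h : nt (orr (ps a b c) (ng a b c)) = true) :
    ori (pt a) (pt b) (pt c) = 0 := by
  rw [nt_iff, ← Bool.not_eq_true, orr_iff, ps_iff, ng_iff, not_or, not_lt, not_lt] at h
  unfold pt
  rw [ori_cc]
  exact_mod_cast le_antisymm h.1 h.2

theorem on_lines : OnLines dodecahedron p 9 := by
  refine ⟨Ln, fun i => ⟨_, _, ?_, rfl⟩, ?_⟩
  · intro h
    exact ln_ne i (inj_pt (em_inj (sub_eq_zero.1 h))).symm
  · have key : ∀ x ∈ EN, segment ℝ (p x.1.1) (p x.1.2) ⊆ ⋃ i, Ln i := by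
      intro x hx z hz
      have h := al_iff.1 line_chk x hx
      rw [an_iff, an_iff, ltb_iff] at h
      obtain ⟨h1, h2, h3⟩ := h
      rw [mem_iUnion]
      refine ⟨⟨x.2, h1⟩, ?_⟩
      obtain ⟨w, hw, rfl⟩ := mem_em_segment hz
      have k2 := flat_zero h2
      have k3 := flat_zero h3
      obtain ⟨t, -, -, hx1, hx2⟩ := mem_seg.1 hw
      have h4 : ori (pt (ln x.2).1) (pt (ln x.2).2) w = 0 := by
        rw [ori_seg hx1 hx2, k2, k3]
        ring
      have hne : pt (ln x.2).1 ≠ pt (ln x.2).2 := fun e => ln_ne ⟨x.2, h1⟩ (inj_pt e)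
      obtain ⟨r, hr1, hr2⟩ := on_line hne h4
      refine ⟨r, ?_⟩
      rw [em_eq]
      refine ⟨?_, ?_, ?_⟩
      · simp [p, em, hr1]
      · simp [p, em, hr2]
      · simp [p, em]
    intro a b hab
    rcases adj_mem a b hab with h | h
    · obtain ⟨x, hx, he⟩ := List.mem_map.1 h
      have := key x hx
      rw [he] at this
      exact this
    · obtain ⟨x, hx, he⟩ := List.mem_map.1 h
      have := key x hx
      rw [he] at this
      rw [segment_symm]
      exact this

/-- The dodecahedron graph has a crossing-free straight-line drawing in space (even in a plane)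
whose edges lie on nine lines, so its affine line cover number is at most 9 and not 10. -/
theorem result : rho dodecahedron ≤ 9 ∧
    ∃ p : Fin 20 → Space, IsDrawing dodecahedron p ∧ OnLines dodecahedron p 9 ∧ ∀ v, p v 2 = 0 :=
  ⟨Nat.sInf_le ⟨p, drawing, on_lines⟩, p, drawing, on_lines, fun _ => rfl⟩

end Pool.Agent.Results.MP_a0dd0b_co.NineLines
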